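import Pool.Agent.U552.UD.Char
import Pool.Agent.U828.KD.OrdNull

/-!
# Integer parts of arbitrary functions of different orders avoid pronull sets

The equidistribution modulo all integers up to a power is helper828's `Pool.Agent.U828.KD.order_well`.
-/

set_option autoImplicit false
set_option linter.unusedSectionVars false
set_option linter.unusedVariables false

namespace Pool.Agent.U552.UD

open Finset Filter Topology
open Pool.Agent.N24.RW (ProNull)
open Pool.Agent.U125.NO (Nul Avoids nul_countable)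
open Pool.Agent.U828.KD (Orders)
open Pool.Agent.N666.TM (Well)
open Pool.Agent.Y722.HS (red)

/-- from the intervals `(N, 2 N]` to initial segments -/
theorem count_initial (p : ℕ → Prop) (C : ℝ) (hC : 0 ≤ C) (N₀ : ℕ)
    (h : ∀ N : ℕ, N₀ ≤ N → (({n : ℕ | n ∈ Ioc N (2 * N) ∧ p n}.ncard : ℕ) : ℝ) ≤ C * N) :
    ∀ N : ℕ, (({n : ℕ | n < N ∧ p n}.ncard : ℕ) : ℝ) ≤ (2 * N₀ + 4) + 2 * C * N := by
  intro N
  induction N using Nat.strong_induction_on with
  | _ N ih =>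
    by_cases hN : N ≤ 2 * N₀ + 4
    · have h1 : {n : ℕ | n < N ∧ p n}.ncard ≤ N := by
        have h2 := Set.ncard_le_ncard (s := {n : ℕ | n < N ∧ p n}) (t := ((range N : Finset ℕ) : Set ℕ))
          (fun n hn => by
            rw [Finset.coe_range]
            exact hn.1) (Finset.finite_toSet _)
        rwa [Set.ncard_coe_finset, Finset.card_range] at h2
      have h3 : (({n : ℕ | n < N ∧ p n}.ncard : ℕ) : ℝ) ≤ 2 * N₀ + 4 := by exact_mod_cast h1.trans hN
      have h4 : 0 ≤ 2 * C * (N : ℝ) := by positivity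
      linarith
    · push Not at hN
      obtain ⟨M, hM⟩ : ∃ M, M = N / 2 := ⟨_, rfl⟩
      have h1 := ih (M + 1) (by omega)
      have h2 := h M (by omega)
      have hsub : {n : ℕ | n < N ∧ p n} ⊆ {n : ℕ | n < M + 1 ∧ p n} ∪ {n : ℕ | n ∈ Ioc M (2 * M) ∧ p n} := by
        rintro n ⟨hn, hp⟩
        by_cases h5 : n < M + 1
        · exact Or.inl ⟨h5, hp⟩
        · exact Or.inr ⟨Finset.mem_Ioc.2 ⟨by omega, by omega⟩, hp⟩
      have hfin : ({n : ℕ | n < M + 1 ∧ p n} ∪ {n : ℕ | n ∈ Ioc M (2 * M) ∧ p n}).Finite := by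
        refine Set.Finite.union ((Set.finite_Iio (M + 1)).subset fun n hn => hn.1) ?_
        exact (Finset.finite_toSet (Ioc M (2 * M))).subset fun n hn => hn.1
      have h3 := (Set.ncard_le_ncard hsub hfin).trans (Set.ncard_union_le _ _)
      have h4 : (({n : ℕ | n < N ∧ p n}.ncard : ℕ) : ℝ) ≤
          (({n : ℕ | n < M + 1 ∧ p n}.ncard : ℕ) : ℝ) + (({n : ℕ | n ∈ Ioc M (2 * M) ∧ p n}.ncard : ℕ) : ℝ) := by
        exact_mod_cast h3
      have h5 : (2 : ℝ) * M ≤ N := by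
        have : 2 * M ≤ N := by omega
        exact_mod_cast this
      have h6 : (4 : ℝ) ≤ N := by
        have : 4 ≤ N := by omega
        exact_mod_cast this
      push_cast at h1
      nlinarith [mul_nonneg hC (by linarith : (0 : ℝ) ≤ N - 2 * M), mul_nonneg hC (by linarith : (0 : ℝ) ≤ (N : ℝ) - 4)]

section
variable {ι : Type} [Fintype ι] [DecidableEq ι]

theorem upper_of_well {c : ℕ → ι → ℤ} {κ : ℝ} (hκ : 0 < κ)
    (h : ∃ N₀ : ℕ, ∀ N : ℕ, N₀ ≤ N → ∀ H : ℕ, (H : ℝ) ≤ (N : ℝ) ^ κ → Well (Ioc N (2 * N)) c H) : Upper 4 c := by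
  classical
  obtain ⟨N₀, h⟩ := h
  intro q hq a δ hδ
  have hqr : (0 : ℝ) < q := by exact_mod_cast hq
  have hev : ∀ᶠ N : ℕ in atTop, (q : ℝ) ≤ (N : ℝ) ^ κ :=
    ((tendsto_rpow_atTop hκ).comp tendsto_natCast_atTop_atTop).eventually_ge_atTop (q : ℝ)
  obtain ⟨N₁, hN₁⟩ := eventually_atTop.1 hev
  obtain ⟨N₂, hN₂⟩ : ∃ N₂, N₂ = max (max N₀ N₁) 1 := ⟨_, rfl⟩
  have h1 : ∀ N : ℕ, N₂ ≤ N → (({n : ℕ | n ∈ Ioc N (2 * N) ∧ ∀ i, ((c n i : ℤ) : ZMod q) = a i}.ncard : ℕ) : ℝ) ≤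
      2 / (q : ℝ) ^ Fintype.card ι * N := by
    intro N hN
    have hNN : 1 ≤ N := by omega
    have hNr : (0 : ℝ) < N := by exact_mod_cast hNN
    have hw := (h N (by omega) q (hN₁ N (by omega))).dist q hq (by omega) a
    have e1 : {n : ℕ | n ∈ Ioc N (2 * N) ∧ ∀ i, ((c n i : ℤ) : ZMod q) = a i} =
        (((Ioc N (2 * N)).filter fun n => red q (c n) = a : Finset ℕ) : Set ℕ) := by
      ext n
      simp only [Set.mem_setOf_eq, Finset.coe_filter]
      refine and_congr_right fun _ => ?_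
      constructor
      · intro h2
        funext i
        exact h2 i
      · intro h2 i
        exact congrFun h2 i
    rw [e1, Set.ncard_coe_finset]
    have e2 : (Ioc N (2 * N)).card = N := by
      rw [Nat.card_Ioc]
      omega
    rw [e2] at hw
    have h3 := (abs_le.1 hw).2
    have h4 : (0 : ℝ) < (q : ℝ) ^ Fintype.card ι := by positivity
    have h5 : 1 / (2 * (q : ℝ) + 1) * (1 / (q : ℝ) ^ Fintype.card ι) ≤ 1 / (q : ℝ) ^ Fintype.card ι := by
      have h6 : 1 / (2 * (q : ℝ) + 1) ≤ 1 := by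
        rw [div_le_one (by positivity)]
        linarith
      have h7 : 0 < 1 / (q : ℝ) ^ Fintype.card ι := by positivity
      nlinarith
    have h6 : ((#{n ∈ Ioc N (2 * N) | red q (c n) = a} : ℕ) : ℝ) / N ≤ 2 / (q : ℝ) ^ Fintype.card ι := by
      have e3 : 2 / (q : ℝ) ^ Fintype.card ι = 1 / (q : ℝ) ^ Fintype.card ι + 1 / (q : ℝ) ^ Fintype.card ι := by ring
      rw [e3]
      linarith
    rwa [div_le_iff₀ hNr] at h6
  have h2 := count_initial (fun n => ∀ i, ((c n i : ℤ) : ZMod q) = a i) (2 / (q : ℝ) ^ Fintype.card ι) (by positivity)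
    N₂ h1
  obtain ⟨N₃, hN₃⟩ := exists_nat_ge ((2 * (N₂ : ℝ) + 4) / δ)
  refine ⟨N₃, fun N hN => (h2 N).trans ?_⟩
  have h3 : (2 * (N₂ : ℝ) + 4) ≤ δ * N := by
    have h4 : (N₃ : ℝ) ≤ N := by exact_mod_cast hN
    rw [div_le_iff₀ hδ] at hN₃
    nlinarith
  have e4 : 2 * (2 / (q : ℝ) ^ Fintype.card ι) * (N : ℝ) = 4 / (q : ℝ) ^ Fintype.card ι * N := by ring
  rw [e4]
  linarith

/-- arbitrary functions of different orders -/
theorem order_upper {c : ℕ → ℝ} (hc0 : ∀ l, 0 < c l) (hc : Function.Injective c) {f : ℕ → ℕ → ℝ} (hf : Orders c f)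
    (σ : ι → ℕ) (hσ : Function.Injective σ) : Upper 4 (fun n i => ⌊f (σ i) n⌋) := by
  cases isEmpty_or_nonempty ι with
  | inl hι =>
    intro q hq a δ hδ
    refine ⟨0, fun N _ => ?_⟩
    have e1 : {n : ℕ | n < N ∧ ∀ i, ((⌊f (σ i) n⌋ : ℤ) : ZMod q) = a i} = ((range N : Finset ℕ) : Set ℕ) := by
      ext n
      simp
    rw [e1, Set.ncard_coe_finset, Finset.card_range, Fintype.card_eq_zero, pow_zero, div_one]
    nlinarith [(Nat.cast_nonneg N : (0 : ℝ) ≤ N)]
  | inr hι =>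
    obtain ⟨κ, hκ, h⟩ := Pool.Agent.U828.KD.order_family hc0 hc f hf σ hσ
    exact upper_of_well hκ h

theorem order_avoids {c : ℕ → ℝ} (hc0 : ∀ l, 0 < c l) (hc : Function.Injective c) {f : ℕ → ℕ → ℝ} (hf : Orders c f)
    (σ : ι → ℕ) (hσ : Function.Injective σ) : Avoids (fun n i => ⌊f (σ i) n⌋) :=
  (order_upper hc0 hc hf σ hσ).avoids (by norm_num)

end

end Pool.Agent.U552.UD
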