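import Pool.Agent.U552.UD.Fair
import Pool.Agent.U552.UD.Ord

/-!
# Integer parts of arbitrary functions of given orders are fair
-/

set_option autoImplicit false

namespace Pool.Agent.U552.UD

theorem fair_of_orders {c : ℕ → ℝ} (hc0 : ∀ l, 0 < c l) (hc : Function.Injective c) {f : ℕ → ℕ → ℝ}
    (hf : Pool.Agent.U828.KD.Orders c f) : Fair (fun n l => ⌊f l n⌋) :=
  fair_of_upper fun _ _ _ σ hσ => ⟨4, order_upper hc0 hc hf σ hσ⟩

end Pool.Agent.U552.UD
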