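import Pool.Agent.U552.UD.Fam

/-!
# Fair sequences of vectors
-/

set_option autoImplicit false
set_option linter.unusedSectionVars false
set_option linter.unusedVariables false

namespace Pool.Agent.U552.UD

open Finset Filter Topology
open Pool.Agent.U125.NO (Nul Avoids nul_countable)

/-- For every finite set of indices, with `s` elements, the proportion of the `n < N` with given residues of the
`c n l` modulo `q` is at most `C q ^ (-s) + o(1)`, where `C` depends on the set only. -/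
def Fair (c : ℕ → ℕ → ℤ) : Prop :=
  ∀ s : Finset ℕ, ∃ C : ℝ, ∀ q : ℕ, 0 < q → ∀ (a : ℕ → ℤ) (δ : ℝ), 0 < δ → ∃ N₀ : ℕ, ∀ N : ℕ, N₀ ≤ N →
    (({n : ℕ | n < N ∧ ∀ l ∈ s, (q : ℤ) ∣ c n l - a l}.ncard : ℕ) : ℝ) ≤ (C / (q : ℝ) ^ s.card + δ) * N

theorem Fair.upper {c : ℕ → ℕ → ℤ} (h : Fair c) {ι : Type} [Fintype ι] (σ : ι → ℕ) (hσ : Function.Injective σ) :
    ∃ C : ℝ, 0 ≤ C ∧ Upper C (fun n i => c n (σ i)) := by
  classical
  obtain ⟨C, hC⟩ := h (Finset.univ.map ⟨σ, hσ⟩)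
  refine ⟨max C 0, le_max_right _ _, fun q hq a δ hδ => ?_⟩
  have : NeZero q := ⟨hq.ne'⟩
  obtain ⟨N₀, hN₀⟩ := hC q hq (Function.extend σ (fun i => ((a i).val : ℤ)) 0) δ hδ
  refine ⟨N₀, fun N hN => ?_⟩
  have h1 := hN₀ N hN
  rw [Finset.card_map, Finset.card_univ] at h1
  have e1 : {n : ℕ | n < N ∧ ∀ l ∈ Finset.univ.map ⟨σ, hσ⟩,
      (q : ℤ) ∣ c n l - Function.extend σ (fun i => ((a i).val : ℤ)) 0 l} =
      {n : ℕ | n < N ∧ ∀ i, ((c n (σ i) : ℤ) : ZMod q) = a i} := by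
    ext n
    simp only [Set.mem_setOf_eq]
    refine and_congr_right fun _ => ?_
    constructor
    · intro h2 i
      have h3 := h2 (σ i) (Finset.mem_map.2 ⟨i, Finset.mem_univ _, rfl⟩)
      rw [hσ.extend_apply] at h3
      have h4 := (ZMod.intCast_zmod_eq_zero_iff_dvd _ q).2 h3
      push_cast at h4
      rw [ZMod.natCast_val, ZMod.cast_id', id, sub_eq_zero] at h4
      exact h4
    · intro h2 l hl
      obtain ⟨i, -, rfl⟩ := Finset.mem_map.1 hl
      simp only [Function.Embedding.coeFn_mk]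
      rw [hσ.extend_apply]
      refine (ZMod.intCast_zmod_eq_zero_iff_dvd _ q).1 ?_
      push_cast
      rw [h2 i, ZMod.natCast_val, ZMod.cast_id', id, sub_self]
  rw [e1] at h1
  refine h1.trans ?_
  have h5 : C ≤ max C 0 := le_max_left _ _
  gcongr

theorem Fair.avoids {c : ℕ → ℕ → ℤ} (h : Fair c) (ι : Type) [Fintype ι] (σ : ι → ℕ) (hσ : Function.Injective σ) :
    Avoids (fun n i => c n (σ i)) := by
  obtain ⟨C, hC, hu⟩ := h.upper σ hσ
  exact hu.avoids hC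

theorem fair_of_upper {c : ℕ → ℕ → ℤ} (h : ∀ (ι : Type) [Fintype ι] [DecidableEq ι] (σ : ι → ℕ),
    Function.Injective σ → ∃ C : ℝ, Upper C (fun n i => c n (σ i))) : Fair c := by
  classical
  intro s
  obtain ⟨C, hC⟩ := h s (fun i => i.1) Subtype.val_injective
  refine ⟨C, fun q hq a δ hδ => ?_⟩
  obtain ⟨N₀, hN₀⟩ := hC q hq (fun i => ((a i.1 : ℤ) : ZMod q)) δ hδ
  refine ⟨N₀, fun N hN => ?_⟩
  have h1 := hN₀ N hN
  rw [Fintype.card_coe] at h1
  have e1 : {n : ℕ | n < N ∧ ∀ l ∈ s, (q : ℤ) ∣ c n l - a l} =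
      {n : ℕ | n < N ∧ ∀ i : s, ((c n i.1 : ℤ) : ZMod q) = ((a i.1 : ℤ) : ZMod q)} := by
    ext n
    simp only [Set.mem_setOf_eq]
    refine and_congr_right fun _ => ?_
    constructor
    · intro h2 i
      have h3 := (ZMod.intCast_zmod_eq_zero_iff_dvd _ q).2 (h2 i.1 i.2)
      push_cast at h3
      exact sub_eq_zero.1 h3
    · intro h2 l hl
      refine (ZMod.intCast_zmod_eq_zero_iff_dvd _ q).1 ?_
      push_cast
      exact sub_eq_zero.2 (h2 ⟨l, hl⟩)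
  rw [e1]
  exact h1

theorem fair_of_weyl {x : ℕ → ℕ → ℝ} (hx : WeylFamily x) : Fair (fun n l => ⌊x l n⌋) :=
  fair_of_upper fun ι _ _ σ hσ => ⟨_, upper_of_weyl (hx.weyl σ hσ)⟩

end Pool.Agent.U552.UD
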