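import Pool.Agent.U125.NO.Seq
import Pool.Agent.H767R2.Weyl

/-!
# Integer parts of uniformly distributed real vectors avoid pronull sets

If the nonzero rational combinations of the coordinates of the real vectors `x n` have exponential means tending to
zero, then the vectors of the integer parts of the coordinates of `x n` are in any pronull set only for a set of `n` of
density zero (`avoids_of_weyl`). Real polynomials satisfy the condition by Weyl's theorem (`weyl_of_poly`).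
-/

set_option autoImplicit false
set_option linter.unusedSectionVars false
set_option linter.unusedVariables false

namespace Pool.Agent.U552.UD

open Finset Filter Topology
open Pool.Agent.N24.RW (ProNull)
open Pool.Agent.U125.NO (Nul Avoids nul_countable)
open Pool.Agent.H767R2 (ee cav ee_add norm_ee ee_int ee_zero ee_neg ee_sub)

section
variable {ι : Type} [Fintype ι]

/-- the proportion of the `n` for which `c n` is in a given residue class modulo `q` is at most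
`C q ^ (-r) + o(1)`, where `C` does not depend on `q` -/
def Upper (C : ℝ) (c : ℕ → ι → ℤ) : Prop :=
  ∀ q : ℕ, 0 < q → ∀ (a : ι → ZMod q) (δ : ℝ), 0 < δ → ∃ N₀ : ℕ, ∀ N : ℕ, N₀ ≤ N →
    (({n : ℕ | n < N ∧ ∀ i, ((c n i : ℤ) : ZMod q) = a i}.ncard : ℕ) : ℝ) ≤
      (C / (q : ℝ) ^ Fintype.card ι + δ) * N

theorem Upper.freq {c : ℕ → ι → ℤ} {C : ℝ} (hC : 0 ≤ C) (h : Upper C c) {q : ℕ} (hq : 0 < q)
    {P : (ι → ℤ) → Prop} {ε : ℝ} (hε : 0 ≤ ε)
    (hb : ((((fun (c : ι → ℤ) (i : ι) => (c i : ZMod q)) '' {x | P x}).ncard : ℕ) : ℝ) ≤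
      ε * (q : ℝ) ^ Fintype.card ι) {δ : ℝ} (hδ : 0 < δ) :
    ∀ᶠ N : ℕ in atTop, (({n : ℕ | n < N ∧ P (c n)}.ncard : ℕ) : ℝ) / (N : ℝ) ≤ C * ε + δ := by
  classical
  have : NeZero q := ⟨hq.ne'⟩
  have hqr : (0 : ℝ) < q := by exact_mod_cast hq
  obtain ⟨I, hI⟩ : ∃ I : Set (ι → ZMod q), I = (fun (c : ι → ℤ) (i : ι) => (c i : ZMod q)) '' {x | P x} :=
    ⟨_, rfl⟩
  rw [← hI] at hb
  have hIf : I.Finite := Set.toFinite _
  have hδ' : (0 : ℝ) < δ / (I.ncard + 1) := by positivity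
  choose N₀ hN₀ using fun a : ι → ZMod q => h q hq a (δ / (I.ncard + 1)) hδ'
  filter_upwards [eventually_ge_atTop (max (Finset.univ.sup N₀) 1)] with N hN
  have hN1 : Finset.univ.sup N₀ ≤ N := (le_max_left _ _).trans hN
  have hN2 : 1 ≤ N := (le_max_right _ _).trans hN
  have hNr : (0 : ℝ) < N := by exact_mod_cast hN2
  have hsub : {n : ℕ | n < N ∧ P (c n)} ⊆
      ⋃ a ∈ hIf.toFinset, {n : ℕ | n < N ∧ ∀ i, ((c n i : ℤ) : ZMod q) = a i} := by
    intro n hn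
    rw [Set.mem_iUnion₂]
    refine ⟨fun i => ((c n i : ℤ) : ZMod q), ?_, hn.1, fun i => rfl⟩
    rw [Set.Finite.mem_toFinset, hI]
    exact ⟨_, hn.2, rfl⟩
  have hfin : (⋃ a ∈ hIf.toFinset,
      {n : ℕ | n < N ∧ ∀ i, ((c n i : ℤ) : ZMod q) = a i}).Finite := by
    refine (Set.finite_Iio N).subset ?_
    intro n hn
    rw [Set.mem_iUnion₂] at hn
    obtain ⟨a, -, hn⟩ := hn
    exact hn.1
  have h1 : (({n : ℕ | n < N ∧ P (c n)}.ncard : ℕ) : ℝ) ≤
      ∑ a ∈ hIf.toFinset, (({n : ℕ | n < N ∧ ∀ i, ((c n i : ℤ) : ZMod q) = a i}.ncard : ℕ) : ℝ) := by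
    have h2 := Set.ncard_le_ncard hsub hfin
    have h3 : (⋃ a ∈ hIf.toFinset, {n : ℕ | n < N ∧ ∀ i, ((c n i : ℤ) : ZMod q) = a i}).ncard ≤
        ∑ a ∈ hIf.toFinset, {n : ℕ | n < N ∧ ∀ i, ((c n i : ℤ) : ZMod q) = a i}.ncard := by
      generalize hIf.toFinset = J
      clear h2 hfin hsub
      induction J using Finset.induction_on with
      | empty => simp
      | insert a J ha ih =>
        rw [Finset.set_biUnion_insert, Finset.sum_insert ha]
        exact (Set.ncard_union_le _ _).trans (Nat.add_le_add_left ih _)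
    exact_mod_cast h2.trans h3
  have h2 : ∑ a ∈ hIf.toFinset, (({n : ℕ | n < N ∧ ∀ i, ((c n i : ℤ) : ZMod q) = a i}.ncard : ℕ) : ℝ) ≤
      I.ncard * ((C / (q : ℝ) ^ Fintype.card ι + δ / (I.ncard + 1)) * N) := by
    refine (Finset.sum_le_sum fun a _ => hN₀ a N ((Finset.le_sup (Finset.mem_univ a)).trans hN1)).trans ?_
    rw [Finset.sum_const, nsmul_eq_mul, ← Set.ncard_eq_toFinset_card I hIf]
  have h3 : (I.ncard : ℝ) * (C / (q : ℝ) ^ Fintype.card ι) ≤ C * ε := by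
    have e1 : (0 : ℝ) < (q : ℝ) ^ Fintype.card ι := by positivity
    calc (I.ncard : ℝ) * (C / (q : ℝ) ^ Fintype.card ι)
        ≤ (ε * (q : ℝ) ^ Fintype.card ι) * (C / (q : ℝ) ^ Fintype.card ι) := by
          gcongr
      _ = C * ε := by field_simp
  have h4 : (I.ncard : ℝ) * (δ / (I.ncard + 1)) ≤ δ := by
    have e1 : (0 : ℝ) ≤ I.ncard := by positivity
    calc (I.ncard : ℝ) * (δ / (I.ncard + 1)) = δ * (I.ncard / (I.ncard + 1)) := by ring
      _ ≤ δ * 1 := by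
          refine mul_le_mul_of_nonneg_left ?_ hδ.le
          rw [div_le_one (by positivity)]
          linarith
      _ = δ := mul_one _
  rw [div_le_iff₀ hNr]
  calc (({n : ℕ | n < N ∧ P (c n)}.ncard : ℕ) : ℝ)
      ≤ I.ncard * ((C / (q : ℝ) ^ Fintype.card ι + δ / (I.ncard + 1)) * N) := h1.trans h2
    _ = (I.ncard * (C / (q : ℝ) ^ Fintype.card ι) + I.ncard * (δ / (I.ncard + 1))) * N := by ring
    _ ≤ (C * ε + δ) * N := by gcongr

theorem Upper.avoids {c : ℕ → ι → ℤ} {C : ℝ} (hC : 0 ≤ C) (h : Upper C c) : Avoids c := by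
  intro P hP
  rw [Metric.tendsto_atTop]
  intro ε hε
  obtain ⟨q, hq, -, hb⟩ := hP 1 one_pos (ε / (4 * (C + 1))) (by positivity)
  obtain ⟨N₀, hN₀⟩ := eventually_atTop.1 (h.freq hC hq (by positivity) hb (half_pos (half_pos hε)))
  refine ⟨N₀, fun N hN => ?_⟩
  rw [Real.dist_eq, sub_zero, abs_of_nonneg (by positivity)]
  have h1 : C * (ε / (4 * (C + 1))) ≤ ε / 4 := by
    have : C * (ε / (4 * (C + 1))) = ε / 4 * (C / (C + 1)) := by field_simp
    rw [this]
    have h2 : C / (C + 1) ≤ 1 := by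
      rw [div_le_one (by positivity)]
      linarith
    nlinarith
  have h2 := hN₀ N hN
  linarith

/-- all nonzero rational combinations of the coordinates have exponential means tending to zero -/
def Weyl (x : ℕ → ι → ℝ) : Prop :=
  ∀ h : ι → ℤ, h ≠ 0 → ∀ q : ℕ, 0 < q → Tendsto (cav fun n => ee ((∑ i, (h i : ℝ) * x n i) / q)) atTop (𝓝 0)

theorem ee_sum {α : Type} (s : Finset α) (t : α → ℝ) : ee (∑ i ∈ s, t i) = ∏ i ∈ s, ee (t i) := by
  classical
  induction s using Finset.induction_on with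
  | empty => simp [ee_zero]
  | insert a s ha ih => rw [Finset.sum_insert ha, Finset.prod_insert ha, ee_add, ih]

theorem re_ee {t : ℝ} (h0 : 0 ≤ t) (h1 : t ≤ 1 / 8) : (1 : ℝ) / 2 ≤ (ee t).re := by
  have e1 : (ee t).re = Real.cos (2 * Real.pi * t) := by
    rw [Pool.Agent.H767R2.ee]
    have : (2 * Real.pi * t * Complex.I : ℂ) = ((2 * Real.pi * t : ℝ) : ℂ) * Complex.I := by push_cast; ring
    rw [this, Complex.exp_ofReal_mul_I_re]
  rw [e1]
  have h2 := Real.one_sub_sq_div_two_le_cos (x := 2 * Real.pi * t)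
  have h3 := Real.pi_lt_d2
  have h4 := Real.pi_pos
  have h5 : 2 * Real.pi * t ≤ 0.79 := by nlinarith
  have h6 : 0 ≤ 2 * Real.pi * t := by positivity
  nlinarith

/-- a short sum of exponentials is large near the integers -/
theorem kernel_large {q L : ℕ} (hq : 0 < q) (hL : 8 * L ≤ q + 8) {y : ℝ} {z : ℤ} (h1 : (q : ℝ) * z ≤ y)
    (h2 : y < q * z + 1) : (L : ℝ) / 2 ≤ ‖∑ k ∈ range L, ee ((k : ℝ) * (y / q))‖ := by
  have hqr : (0 : ℝ) < q := by exact_mod_cast hq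
  obtain ⟨θ, hθ⟩ : ∃ θ, θ = y / q - z := ⟨_, rfl⟩
  have hθ0 : 0 ≤ θ := by
    rw [hθ, sub_nonneg, le_div_iff₀ hqr]
    linarith
  have hθ1 : θ * q ≤ 1 := by
    rw [hθ, sub_mul, div_mul_cancel₀ _ hqr.ne']
    linarith
  have h3 : ∀ k ∈ range L, ee ((k : ℝ) * (y / q)) = ee ((k : ℝ) * θ) := by
    intro k _
    have e1 : (k : ℝ) * (y / q) = (k : ℝ) * θ + (((k : ℤ) * z : ℤ) : ℝ) := by
      rw [hθ]
      push_cast
      ring
    rw [e1, ee_add, ee_int, mul_one]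
  rw [Finset.sum_congr rfl h3]
  have h4 : (L : ℝ) / 2 ≤ (∑ k ∈ range L, ee ((k : ℝ) * θ)).re := by
    rw [Complex.re_sum]
    have h5 : ∀ k ∈ range L, (1 : ℝ) / 2 ≤ (ee ((k : ℝ) * θ)).re := by
      intro k hk
      rw [Finset.mem_range] at hk
      refine re_ee (by positivity) ?_
      have h6 : (8 : ℝ) * k ≤ q := by
        have : 8 * k ≤ q := by omega
        exact_mod_cast this
      have h7 : 8 * (k : ℝ) * θ ≤ q * θ := mul_le_mul_of_nonneg_right h6 hθ0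
      linarith
    have h6 := Finset.sum_le_sum h5
    rw [Finset.sum_const, Finset.card_range, nsmul_eq_mul] at h6
    linarith
  exact h4.trans (Complex.re_le_norm _)

theorem cav_mul (w : ℂ) (a : ℕ → ℂ) (N : ℕ) : cav (fun n => w * a n) N = w * cav a N := by
  unfold Pool.Agent.H767R2.cav
  rw [← Finset.mul_sum]
  ring

theorem cav_sum {α : Type} (s : Finset α) (a : α → ℕ → ℂ) (N : ℕ) :
    cav (fun n => ∑ k ∈ s, a k n) N = ∑ k ∈ s, cav (a k) N := by
  unfold Pool.Agent.H767R2.cav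
  rw [Finset.sum_comm, Finset.mul_sum]

theorem upper_of_weyl {x : ℕ → ι → ℝ} (hx : Weyl x) : Upper (32 ^ Fintype.card ι) (fun n i => ⌊x n i⌋) := by
  classical
  intro q hq a δ hδ
  have : NeZero q := ⟨hq.ne'⟩
  have hqr : (0 : ℝ) < q := by exact_mod_cast hq
  obtain ⟨L, hL⟩ : ∃ L : ℕ, L = (q + 7) / 8 := ⟨_, rfl⟩
  have hL1 : 8 * L ≤ q + 8 := by omega
  have hL2 : q ≤ 8 * L := by omega
  have hL0 : 0 < L := by omega
  have hLr : (0 : ℝ) < L := by exact_mod_cast hL0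
  obtain ⟨r, hr⟩ : ∃ r, r = Fintype.card ι := ⟨_, rfl⟩
  rw [← hr]
  obtain ⟨B, hB⟩ : ∃ B : Finset (ι → ℕ), B = Fintype.piFinset (fun _ : ι => range L) := ⟨_, rfl⟩
  have hBc : B.card = L ^ r := by
    rw [hB, Fintype.card_piFinset, Finset.prod_const, Finset.card_univ, Finset.card_range, hr]
  obtain ⟨y, hy⟩ : ∃ y : ℕ → ι → ℝ, y = fun n i => (x n i - ((a i).val : ℝ)) / q := ⟨_, rfl⟩
  obtain ⟨φ, hφ⟩ : ∃ φ : (ι → ℕ) → ℕ → ℝ, φ = fun k n => ∑ i, (k i : ℝ) * y n i := ⟨_, rfl⟩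
  -- the kernel
  have hT : ∀ n, ∏ i, ∑ k ∈ range L, ee ((k : ℝ) * y n i) = ∑ k ∈ B, ee (φ k n) := by
    intro n
    rw [Finset.prod_univ_sum, hB]
    refine Finset.sum_congr rfl fun k _ => ?_
    rw [hφ, ee_sum]
  have hsq : ∀ n, ((‖∑ k ∈ B, ee (φ k n)‖ ^ 2 : ℝ) : ℂ) = ∑ k ∈ B, ∑ k' ∈ B, ee (φ k n - φ k' n) := by
    intro n
    rw [← Complex.normSq_eq_norm_sq, ← Complex.mul_conj, map_sum, Finset.sum_mul_sum]
    refine Finset.sum_congr rfl fun k _ => Finset.sum_congr rfl fun k' _ => ?_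
    rw [ee_sub]
  have hlim : Tendsto (cav fun n => ((‖∑ k ∈ B, ee (φ k n)‖ ^ 2 : ℝ) : ℂ)) atTop (𝓝 ((B.card : ℝ) : ℂ)) := by
    have e1 : (cav fun n => ((‖∑ k ∈ B, ee (φ k n)‖ ^ 2 : ℝ) : ℂ)) =
        fun N => ∑ k ∈ B, ∑ k' ∈ B, cav (fun n => ee (φ k n - φ k' n)) N := by
      funext N
      have e2 : (fun n => ((‖∑ k ∈ B, ee (φ k n)‖ ^ 2 : ℝ) : ℂ)) =
          fun n => ∑ k ∈ B, ∑ k' ∈ B, ee (φ k n - φ k' n) := funext hsq
      rw [e2, cav_sum]
      exact Finset.sum_congr rfl fun k _ => cav_sum _ _ _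
    have e3 : ((B.card : ℝ) : ℂ) = ∑ k ∈ B, ∑ k' ∈ B, if k = k' then (1 : ℂ) else 0 := by
      simp
    rw [e1, e3]
    refine tendsto_finset_sum _ fun k _ => tendsto_finset_sum _ fun k' _ => ?_
    by_cases hk : k = k'
    · subst hk
      rw [if_pos rfl]
      refine (tendsto_const_nhds (x := (1 : ℂ))).congr' ?_
      filter_upwards [eventually_ge_atTop 1] with N hN
      have hN0 : (N : ℂ) ≠ 0 := by exact_mod_cast (by omega : N ≠ 0)
      unfold Pool.Agent.H767R2.cav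
      simp only [sub_self, ee_zero, Finset.sum_const, Finset.card_range, nsmul_eq_mul, mul_one]
      rw [one_div, inv_mul_cancel₀ hN0]
    · rw [if_neg hk]
      obtain ⟨h, hh⟩ : ∃ h : ι → ℤ, h = fun i => (k i : ℤ) - (k' i : ℤ) := ⟨_, rfl⟩
      have hh0 : h ≠ 0 := by
        intro h0
        apply hk
        funext i
        have := congrFun h0 i
        rw [hh] at this
        simp only [Pi.zero_apply] at this
        omega
      have h5 := hx h hh0 q hq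
      have e4 : (cav fun n => ee (φ k n - φ k' n)) =
          fun N => ee (-((∑ i, (h i : ℝ) * ((a i).val : ℝ)) / q)) *
            cav (fun n => ee ((∑ i, (h i : ℝ) * x n i) / q)) N := by
        funext N
        rw [← cav_mul]
        congr 1
        funext n
        rw [← ee_add]
        congr 1
        rw [hφ, hy, hh]
        simp only
        rw [← Finset.sum_sub_distrib, neg_add_eq_sub, ← sub_div, ← Finset.sum_sub_distrib, Finset.sum_div]
        refine Finset.sum_congr rfl fun i _ => ?_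
        push_cast
        ring
      rw [e4]
      simpa using h5.const_mul (ee (-((∑ i, (h i : ℝ) * ((a i).val : ℝ)) / q)))
  have hlimr : Tendsto (fun N : ℕ => (∑ n ∈ range N, ‖∑ k ∈ B, ee (φ k n)‖ ^ 2) / N) atTop (𝓝 (B.card : ℝ)) := by
    have h6 := (Complex.continuous_re.tendsto _).comp hlim
    rw [Complex.ofReal_re] at h6
    refine h6.congr fun N => ?_
    simp only [Function.comp]
    unfold Pool.Agent.H767R2.cav
    rw [← Complex.ofReal_sum, one_div, ← Complex.ofReal_natCast, ← Complex.ofReal_inv, ← Complex.ofReal_mul,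
      Complex.ofReal_re]
    ring
  -- the class
  have hcl : ∀ n, (∀ i, ((⌊x n i⌋ : ℤ) : ZMod q) = a i) → ((L : ℝ) / 2) ^ r ≤ ‖∑ k ∈ B, ee (φ k n)‖ := by
    intro n hn
    rw [← hT, norm_prod]
    have e5 : ((L : ℝ) / 2) ^ r = ∏ _i : ι, ((L : ℝ) / 2) := by
      rw [Finset.prod_const, Finset.card_univ, hr]
    rw [e5]
    refine Finset.prod_le_prod (fun i _ => by positivity) fun i _ => ?_
    have h7 : ((⌊x n i⌋ - ((a i).val : ℤ) : ℤ) : ZMod q) = 0 := by
      push_cast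
      rw [hn i, ZMod.natCast_val, ZMod.cast_id', id, sub_self]
    obtain ⟨z, hz⟩ := (ZMod.intCast_zmod_eq_zero_iff_dvd _ q).1 h7
    have h8 : (⌊x n i⌋ : ℝ) = (q : ℝ) * z + ((a i).val : ℝ) := by
      have : ⌊x n i⌋ = (q : ℤ) * z + ((a i).val : ℤ) := by linarith
      rw [this]
      push_cast
      ring
    have h9 := Int.floor_le (x n i)
    have h10 := Int.lt_floor_add_one (x n i)
    have h11 := kernel_large hq hL1 (y := x n i - ((a i).val : ℝ)) (z := z) (by linarith) (by linarith)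
    rw [hy]
    exact h11
  -- the count
  have hcount : ∀ N : ℕ, (({n : ℕ | n < N ∧ ∀ i, ((⌊x n i⌋ : ℤ) : ZMod q) = a i}.ncard : ℕ) : ℝ) *
      (((L : ℝ) / 2) ^ r) ^ 2 ≤ ∑ n ∈ range N, ‖∑ k ∈ B, ee (φ k n)‖ ^ 2 := by
    intro N
    have e6 : {n : ℕ | n < N ∧ ∀ i, ((⌊x n i⌋ : ℤ) : ZMod q) = a i} =
        (((range N).filter fun n => ∀ i, ((⌊x n i⌋ : ℤ) : ZMod q) = a i : Finset ℕ) : Set ℕ) := by
      ext n
      simp
    rw [e6, Set.ncard_coe_finset, ← nsmul_eq_mul, ← Finset.sum_const]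
    refine (Finset.sum_le_sum (g := fun n => ‖∑ k ∈ B, ee (φ k n)‖ ^ 2) fun n hn => ?_).trans
      (Finset.sum_le_sum_of_subset_of_nonneg (Finset.filter_subset _ _) fun n _ _ => by positivity)
    exact pow_le_pow_left₀ (by positivity) (hcl n (Finset.mem_filter.1 hn).2) 2
  have hLd : (0 : ℝ) < (((L : ℝ) / 2) ^ r) ^ 2 := by positivity
  have hev : ∀ᶠ N : ℕ in atTop, (∑ n ∈ range N, ‖∑ k ∈ B, ee (φ k n)‖ ^ 2) / N <
      (B.card : ℝ) + δ * (((L : ℝ) / 2) ^ r) ^ 2 :=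
    hlimr.eventually (gt_mem_nhds (by linarith [mul_pos hδ hLd]))
  obtain ⟨N₀, hN₀⟩ := eventually_atTop.1 hev
  refine ⟨max N₀ 1, fun N hN => ?_⟩
  have hN1 := hN₀ N ((le_max_left _ _).trans hN)
  have hN2 : 1 ≤ N := (le_max_right _ _).trans hN
  have hNr : (0 : ℝ) < N := by exact_mod_cast hN2
  rw [div_lt_iff₀ hNr] at hN1
  have h12 := (hcount N).trans hN1.le
  have h13 : (B.card : ℝ) ≤ 32 ^ r / (q : ℝ) ^ r * (((L : ℝ) / 2) ^ r) ^ 2 := by
    rw [hBc]
    push_cast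
    have e7 : (32 : ℝ) ^ r / (q : ℝ) ^ r * (((L : ℝ) / 2) ^ r) ^ 2 = (32 / q * ((L : ℝ) / 2) ^ 2) ^ r := by
      rw [← div_pow, ← pow_mul, mul_comm r 2, pow_mul, ← mul_pow]
    rw [e7]
    refine pow_le_pow_left₀ hLr.le ?_ r
    have h14 : (q : ℝ) ≤ 8 * L := by exact_mod_cast hL2
    rw [div_mul_eq_mul_div, le_div_iff₀ hqr]
    nlinarith
  have h15 : (({n : ℕ | n < N ∧ ∀ i, ((⌊x n i⌋ : ℤ) : ZMod q) = a i}.ncard : ℕ) : ℝ) *
      (((L : ℝ) / 2) ^ r) ^ 2 ≤ ((32 ^ r / (q : ℝ) ^ r + δ) * N) * (((L : ℝ) / 2) ^ r) ^ 2 := by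
    refine h12.trans ?_
    have : ((B.card : ℝ) + δ * (((L : ℝ) / 2) ^ r) ^ 2) * N ≤
        (32 ^ r / (q : ℝ) ^ r * (((L : ℝ) / 2) ^ r) ^ 2 + δ * (((L : ℝ) / 2) ^ r) ^ 2) * N := by gcongr
    refine this.trans (le_of_eq ?_)
    ring
  exact le_of_mul_le_mul_right h15 hLd

theorem avoids_of_weyl {x : ℕ → ι → ℝ} (hx : Weyl x) : Avoids (fun n i => ⌊x n i⌋) :=
  (upper_of_weyl hx).avoids (by positivity)

open Polynomial in
/-- Weyl's theorem for several polynomials -/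
theorem weyl_of_poly (P : ι → ℝ[X])
    (hP : ∀ h : ι → ℤ, h ≠ 0 → ∃ j : ℕ, 1 ≤ j ∧ Irrational (∑ i, (h i : ℝ) * (P i).coeff j)) :
    Weyl (fun n i => (P i).eval (n : ℝ)) := by
  intro h hh q hq
  obtain ⟨j, hj, hirr⟩ := hP h hh
  have h1 := Pool.Agent.H767R2.weyl_poly (C ((1 : ℝ) / q) * ∑ i, C (h i : ℝ) * P i) ⟨j, hj, by
    rw [coeff_C_mul, finset_sum_coeff]
    simp only [coeff_C_mul]
    have := hirr.div_natCast (m := q) hq.ne'
    rwa [one_div, inv_mul_eq_div]⟩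
  refine h1.congr fun N => ?_
  unfold Pool.Agent.H767R2.cav
  congr 1
  refine Finset.sum_congr rfl fun n _ => ?_
  simp only [eval_mul, eval_C, eval_finset_sum]
  rw [one_div, inv_mul_eq_div]

end

/-- one set of density zero for all vectors of indices and countably many pronull sets -/
theorem diag_family {K : Type} [Countable K] (ι : K → Type) [∀ a, Fintype (ι a)] (P : ∀ a, (ι a → ℤ) → Prop)
    (hP : ∀ a, ProNull {x | P a x}) (c : ℕ → ℕ → ℤ)
    (hc : ∀ (a : K) (σ : ι a → ℕ), Function.Injective σ → Avoids (fun n i => c n (σ i))) :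
    ∃ E : Set ℕ, Nul E ∧ ∀ (a : K) (σ : ι a → ℕ), Function.Injective σ →
      {n : ℕ | n ∉ E ∧ P a (fun i => c n (σ i))}.Finite := by
  obtain ⟨E, hE1, hE2⟩ := nul_countable (K := Σ a : K, {σ : ι a → ℕ // Function.Injective σ})
    (fun t => {n : ℕ | P t.1 (fun i => c n (t.2.1 i))}) (fun t => hc t.1 t.2.1 t.2.2 (P t.1) (hP t.1))
  refine ⟨E, hE1, fun a σ hσ => (hE2 ⟨a, σ, hσ⟩).subset ?_⟩
  rintro n ⟨hn1, hn2⟩
  exact ⟨hn2, hn1⟩

end Pool.Agent.U552.UD
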