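import Pool.Agent.U552.UD.Char

/-!
# Sequences of real sequences
-/

set_option autoImplicit false
set_option linter.unusedSectionVars false
set_option linter.unusedVariables false

namespace Pool.Agent.U552.UD

open Finset Filter Topology Polynomial
open Pool.Agent.U125.NO (Nul Avoids nul_countable)
open Pool.Agent.H767R2 (ee cav ee_add norm_ee ee_int ee_zero ee_neg ee_sub)

/-- The exponential means of all nontrivial rational combinations of the sequences tend to zero. -/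
def WeylFamily (x : ℕ → ℕ → ℝ) : Prop :=
  ∀ (s : Finset ℕ) (h : ℕ → ℚ), (∃ l ∈ s, h l ≠ 0) →
    Tendsto (fun N : ℕ => (∑ n ∈ range N,
      Complex.exp (2 * Real.pi * ((∑ l ∈ s, (h l : ℝ) * x l n : ℝ) : ℂ) * Complex.I)) / (N : ℂ)) atTop (𝓝 0)

theorem WeylFamily.weyl {x : ℕ → ℕ → ℝ} (hx : WeylFamily x) {ι : Type} [Fintype ι] (σ : ι → ℕ)
    (hσ : Function.Injective σ) : Weyl (fun n i => x (σ i) n) := by
  classical
  intro h hh q hq
  obtain ⟨i₀, hi₀⟩ := Function.ne_iff.1 hh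
  have hq0 : (q : ℚ) ≠ 0 := by exact_mod_cast hq.ne'
  have h1 := hx (Finset.univ.map ⟨σ, hσ⟩) (fun l => ((Function.extend σ h 0 l : ℤ) : ℚ) / q)
    ⟨σ i₀, Finset.mem_map.2 ⟨i₀, Finset.mem_univ _, rfl⟩, by
      rw [hσ.extend_apply]
      exact div_ne_zero (by exact_mod_cast hi₀) hq0⟩
  refine h1.congr fun N => ?_
  unfold Pool.Agent.H767R2.cav
  rw [one_div, div_eq_inv_mul]
  congr 1
  refine Finset.sum_congr rfl fun n _ => ?_
  simp only [Pool.Agent.H767R2.ee]
  congr 4
  rw [Finset.sum_map, Finset.sum_div]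
  refine Finset.sum_congr rfl fun i _ => ?_
  simp only [Function.Embedding.coeFn_mk, hσ.extend_apply]
  push_cast
  ring

/-- No nontrivial integral combination of finitely many of the polynomials has only rational coefficients in positive
degrees. -/
def Independent (P : ℕ → ℝ[X]) : Prop :=
  ∀ (s : Finset ℕ) (h : ℕ → ℤ), (∃ l ∈ s, h l ≠ 0) →
    ∃ j : ℕ, 1 ≤ j ∧ Irrational (∑ l ∈ s, (h l : ℝ) * (P l).coeff j)

theorem weylFamily_of_poly {P : ℕ → ℝ[X]} (hP : Independent P) :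
    WeylFamily (fun l n => (P l).eval (n : ℝ)) := by
  classical
  intro s h ⟨l₀, hl₀, hh⟩
  obtain ⟨D, hD⟩ : ∃ D : ℕ, D = ∏ l ∈ s, (h l).den := ⟨_, rfl⟩
  have hD0 : D ≠ 0 := by
    rw [hD]
    exact Finset.prod_ne_zero_iff.2 fun l _ => (h l).den_nz
  have hk : ∀ l, ∃ k : ℤ, l ∈ s → (D : ℚ) * h l = k := by
    intro l
    by_cases hl : l ∈ s
    · obtain ⟨c, hc⟩ : (h l).den ∣ D := hD ▸ Finset.dvd_prod_of_mem _ hl
      refine ⟨c * (h l).num, fun _ => ?_⟩
      rw [hc]
      push_cast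
      have := Rat.mul_den_eq_num (h l)
      calc ((h l).den : ℚ) * c * h l = c * (h l * (h l).den) := by ring
        _ = c * (h l).num := by rw [this]
    · exact ⟨0, fun h => absurd h hl⟩
  choose k hk using hk
  have hDq : (D : ℚ) ≠ 0 := by exact_mod_cast hD0
  have hDr : (D : ℝ) ≠ 0 := by exact_mod_cast hD0
  have hkl : ∀ l ∈ s, (h l : ℝ) = (k l : ℝ) / D := by
    intro l hl
    rw [eq_div_iff hDr, mul_comm]
    exact_mod_cast hk l hl
  obtain ⟨j, hj, hirr⟩ := hP s k ⟨l₀, hl₀, fun h0 => hh (by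
    have := hk l₀ hl₀
    rw [h0, Int.cast_zero] at this
    exact (mul_eq_zero.1 this).resolve_left hDq)⟩
  have h1 := Pool.Agent.H767R2.weyl_poly (∑ l ∈ s, C (h l : ℝ) * P l) ⟨j, hj, by
    rw [finset_sum_coeff]
    simp only [coeff_C_mul]
    have e1 : ∑ l ∈ s, (h l : ℝ) * (P l).coeff j = (∑ l ∈ s, (k l : ℝ) * (P l).coeff j) / D := by
      rw [Finset.sum_div]
      refine Finset.sum_congr rfl fun l hl => ?_
      rw [hkl l hl]
      ring
    rw [e1]
    exact hirr.div_natCast hD0⟩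
  refine h1.congr fun N => ?_
  unfold Pool.Agent.H767R2.cav
  rw [one_div, div_eq_inv_mul]
  congr 1
  refine Finset.sum_congr rfl fun n _ => ?_
  simp only [Pool.Agent.H767R2.ee, eval_finset_sum, eval_mul, eval_C]

end Pool.Agent.U552.UD
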