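import Pool.Agent.Results.MP_1bad5e_ag.RandomOrbits
import Pool.Agent.U552.UD.Char

/-! One set for all families of MP_1bad5e_ag. -/

set_option autoImplicit false

namespace Pool.Agent.U552.UD.M1b

open NumberField Filter Topology
open Pool.Agent.U125.NO (Nul Avoids)
open Pool.Agent.Results.MP_1bad5e_ag.RandomOrbits (Idx GoodOver Locus pro)

/-- Degrees, finite extensions and loci. -/
def Cond (K : Type) [Field K] : Type :=
  {N : ℕ // 5 ≤ N ∧ Odd N} ×
  (Σ S : {S : Finset (AlgebraicClosure K) //
      FiniteDimensional K (IntermediateField.adjoin K (S : Set (AlgebraicClosure K)))},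
    {t : IntermediateField.adjoin K (S.1 : Set (AlgebraicClosure K)) ×
        IntermediateField.adjoin K (S.1 : Set (AlgebraicClosure K)) ×
        IntermediateField.adjoin K (S.1 : Set (AlgebraicClosure K)) //
      Locus (IntermediateField.adjoin K (S.1 : Set (AlgebraicClosure K))) t.1 t.2.1 t.2.2})

instance (K : Type) [Field K] [NumberField K] : Countable (Cond K) := by
  have := Pool.Agent.N140.RO.countable_algClosure K
  unfold Cond
  infer_instance

theorem main {K : Type} [Field K] [NumberField K] {J : Type} [Fintype J] (ω : Module.Basis J ℤ (𝓞 K))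
    (c : ℕ → ℕ → ℤ) (hc : ∀ (ι : Type) [Fintype ι] (σ : ι → ℕ), Function.Injective σ →
      Avoids (fun n i => c n (σ i))) :
    ∃ S : Set ℕ, Nul S ∧ ∀ N : ℕ, 5 ≤ N → Odd N → ∀ σ : Idx N J → ℕ, Function.Injective σ →
      ∀ F : IntermediateField K (AlgebraicClosure K), FiniteDimensional K F →
        ∀ α β μ : F, Locus F α β μ → {n : ℕ | n ∉ S ∧ ¬ GoodOver ω F α β (fun i => c n (σ i))}.Finite := by
  classical
  obtain ⟨X, hX1, hX2⟩ := diag_family (K := Cond K) (fun a => Idx a.1.1 J)
    (fun a y => ¬ GoodOver ω (IntermediateField.adjoin K (a.2.1.1 : Set (AlgebraicClosure K)))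
      a.2.2.1.1 a.2.2.1.2.1 y)
    (fun a => by
      obtain ⟨⟨N, hN, hodd⟩, ⟨S, hfd⟩, ⟨α, β, μ⟩, hL⟩ := a
      have hnf : NumberField (IntermediateField.adjoin K (S : Set (AlgebraicClosure K))) := by
        have : CharZero (IntermediateField.adjoin K (S : Set (AlgebraicClosure K))) :=
          charZero_of_injective_algebraMap (algebraMap K _).injective
        have : FiniteDimensional ℚ (IntermediateField.adjoin K (S : Set (AlgebraicClosure K))) :=
          FiniteDimensional.trans ℚ K _
        exact ⟨⟩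
      exact pro ω hN hodd (IntermediateField.adjoin K (S : Set (AlgebraicClosure K))) hL) c
    (fun a σ hσ => hc _ σ hσ)
  refine ⟨X, hX1, fun N hN hodd σ hσ F hF α β μ hL => ?_⟩
  obtain ⟨S, hS⟩ : F.FG := by
    refine IntermediateField.fg_of_fg_toSubalgebra F ?_
    rw [Subalgebra.fg_iff_finiteType]
    have : FiniteDimensional K F.toSubalgebra := hF
    infer_instance
  subst hS
  exact hX2 (⟨N, hN, hodd⟩, ⟨⟨S, hF⟩, ⟨(α, β, μ), hL⟩⟩) σ hσ

end Pool.Agent.U552.UD.M1b
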