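import Pool.Agent.N676.OR.Pro

/-!
# Primes of a given set which divide the value of a polynomial of degree one in some variable exactly once
-/

set_option autoImplicit false
set_option linter.unusedSectionVars false
set_option linter.unusedVariables false

namespace Pool.Agent.U552.UD.Pol

open Finset Filter Topology MvPolynomial Pool.Agent.N24.RW Pool.Agent.N676.OR

/-- modulo large primes at least half of the residues are not zeros -/
theorem half {κ : Type} [Fintype κ] (A : MvPolynomial κ ℤ) (hA : A ≠ 0) : ∃ T : ℕ, ∀ p : ℕ, p.Prime → T < p →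
    (p : ℝ) ^ Fintype.card κ / 2 ≤
      (({y : κ → ZMod p | eval y (A.map (Int.castRingHom (ZMod p))) ≠ 0}.ncard : ℕ) : ℝ) := by
  classical
  obtain ⟨m, hm⟩ := MvPolynomial.ne_zero_iff.1 hA
  refine ⟨(coeff m A).natAbs + 2 * A.totalDegree, fun p hpp hT => ?_⟩
  have : Fact p.Prime := ⟨hpp⟩
  have : NeZero p := ⟨hpp.ne_zero⟩
  have hne : A.map (Int.castRingHom (ZMod p)) ≠ 0 := by
    intro h
    have h1 := congrArg (coeff m) h
    rw [MvPolynomial.coeff_map, coeff_zero] at h1
    have h2 : (p : ℤ) ∣ coeff m A := (ZMod.intCast_zmod_eq_zero_iff_dvd _ _).1 h1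
    have h3 := Nat.le_of_dvd (Int.natAbs_pos.2 hm) (Int.natCast_dvd.1 h2)
    omega
  have h1 := Clo.zeros A p hne
  obtain ⟨Z, hZ⟩ : ∃ Z : Set (κ → ZMod p), Z = {ρ | eval ρ (A.map (Int.castRingHom (ZMod p))) = 0} := ⟨_, rfl⟩
  rw [← hZ] at h1
  have h2 : {y : κ → ZMod p | eval y (A.map (Int.castRingHom (ZMod p))) ≠ 0} = Zᶜ := by
    rw [hZ]
    rfl
  rw [h2]
  have h3 := Set.ncard_add_ncard_compl Z
  rw [Clo.card_pi] at h3
  have h4 : 2 * Z.ncard ≤ p ^ Fintype.card κ := by
    have h5 : 2 * A.totalDegree ≤ p := by omega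
    have h6 : 2 * Z.ncard * p ≤ p ^ Fintype.card κ * p := by
      calc 2 * Z.ncard * p = 2 * (Z.ncard * p) := by ring
        _ ≤ 2 * (A.totalDegree * p ^ Fintype.card κ) := Nat.mul_le_mul_left 2 h1
        _ = (2 * A.totalDegree) * p ^ Fintype.card κ := by ring
        _ ≤ p * p ^ Fintype.card κ := Nat.mul_le_mul_right _ h5
        _ = p ^ Fintype.card κ * p := by ring
    exact Nat.le_of_mul_le_mul_right h6 hpp.pos
  have h5 : p ^ Fintype.card κ ≤ 2 * Zᶜ.ncard := by omega
  have h6 : ((p : ℝ) ^ Fintype.card κ) ≤ 2 * ((Zᶜ.ncard : ℕ) : ℝ) := by exact_mod_cast h5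
  linarith

theorem unit_of {p : ℕ} (hp : p.Prime) {a : ZMod (p ^ 2)}
    (ha : ZMod.castHom (dvd_pow_self p two_ne_zero) (ZMod p) a ≠ 0) : IsUnit a := by
  have : NeZero (p ^ 2) := ⟨pow_ne_zero 2 hp.ne_zero⟩
  obtain ⟨n, rfl⟩ : ∃ n : ℕ, (n : ZMod (p ^ 2)) = a := ⟨a.val, ZMod.natCast_zmod_val a⟩
  rw [map_natCast] at ha
  rw [ZMod.isUnit_iff_coprime]
  refine Nat.Coprime.pow_right 2 ?_
  rw [Nat.coprime_comm, hp.coprime_iff_not_dvd]
  intro h
  exact ha ((ZMod.natCast_eq_zero_iff n p).2 h)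

section

variable {ι : Type} [Fintype ι] [DecidableEq ι]

/-- the reduction of the coordinates different from `l` modulo `p`, and the coordinate `l` -/
def red2 (l : ι) (p : ℕ) : (ι → ZMod (p ^ 2)) →+ ({j : ι // j ≠ l} → ZMod p) × ZMod (p ^ 2) where
  toFun := fun x => (fun j => ZMod.castHom (dvd_pow_self p two_ne_zero) (ZMod p) (x j.1), x l)
  map_zero' := by
    refine Prod.ext ?_ rfl
    funext j
    exact map_zero _
  map_add' := by
    intro x y
    refine Prod.ext ?_ rfl
    funext j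
    exact map_add _ _ _

theorem red2_surj (l : ι) (p : ℕ) : Function.Surjective (red2 l p) := by
  rintro ⟨y, z⟩
  choose x hx using fun j => ZMod.ringHom_surjective (ZMod.castHom (dvd_pow_self p two_ne_zero) (ZMod p)) (y j)
  refine ⟨fun i => if h : i = l then z else x ⟨i, h⟩, ?_⟩
  refine Prod.ext ?_ ?_
  · funext j
    change ZMod.castHom (dvd_pow_self p two_ne_zero) (ZMod p) (if h : j.1 = l then z else x ⟨j.1, h⟩) = y j
    rw [dif_neg j.2]
    exact hx j
  · change (if h : l = l then z else x ⟨l, h⟩) = z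
    rw [dif_pos rfl]

/-- the value of a polynomial in the coordinates different from `l`, modulo `q` -/
noncomputable def vq (l : ι) (q : ℕ) (A : MvPolynomial {j : ι // j ≠ l} ℤ) (x : ι → ZMod q) : ZMod q :=
  eval (fun j : {j : ι // j ≠ l} => x j.1) (A.map (Int.castRingHom (ZMod q)))

theorem vq_int (l : ι) (q : ℕ) (A : MvPolynomial {j : ι // j ≠ l} ℤ) (c : ι → ℤ) :
    vq l q A (fun i => (c i : ZMod q)) = ((eval (fun j : {j : ι // j ≠ l} => c j.1) A : ℤ) : ZMod q) := by
  unfold vq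
  rw [MvPolynomial.eval_map]
  exact (MvPolynomial.eval₂_comp (Int.castRingHom (ZMod q)) (fun j : {j : ι // j ≠ l} => c j.1) A).symm

theorem vq_update (l : ι) (q : ℕ) (A : MvPolynomial {j : ι // j ≠ l} ℤ) (x : ι → ZMod q) (z : ZMod q) :
    vq l q A (Function.update x l z) = vq l q A x := by
  have h : (fun j : {j : ι // j ≠ l} => Function.update x l z j.1) = fun j => x j.1 := by
    funext j
    exact Function.update_of_ne j.2 _ _
  unfold vq
  rw [h]

theorem vq_red (l : ι) (p : ℕ) (A : MvPolynomial {j : ι // j ≠ l} ℤ) (x : ι → ZMod (p ^ 2)) :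
    ZMod.castHom (dvd_pow_self p two_ne_zero) (ZMod p) (vq l (p ^ 2) A x) =
      eval (red2 l p x).1 (A.map (Int.castRingHom (ZMod p))) := by
  unfold vq
  rw [MvPolynomial.eval_map, MvPolynomial.eval_map, ← MvPolynomial.coe_eval₂Hom,
    MvPolynomial.map_eval₂Hom, MvPolynomial.coe_eval₂Hom]
  congr 1
  exact RingHom.ext_int _ _

/-- the residues modulo `p ^ 2` for which `A x_l + B` is divisible by `p` exactly once -/
def good (l : ι) (A B : MvPolynomial {j : ι // j ≠ l} ℤ) (p : ℕ) : Set (ι → ZMod (p ^ 2)) :=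
  {x | vq l (p ^ 2) A x * x l + vq l (p ^ 2) B x ∈ exac p}

theorem good_card (l : ι) (A B : MvPolynomial {j : ι // j ≠ l} ℤ) (hA : A ≠ 0) : ∃ T : ℕ, ∀ p : ℕ, p.Prime →
    T < p → 1 / (4 * (p : ℝ)) * ((p ^ 2 : ℕ) : ℝ) ^ Fintype.card ι ≤ (((good l A B p).ncard : ℕ) : ℝ) := by
  classical
  obtain ⟨T, hT⟩ := half A hA
  refine ⟨T, fun p hp hTp => ?_⟩
  have h1 := hT p hp hTp
  have : NeZero p := ⟨hp.ne_zero⟩
  have : NeZero (p ^ 2) := ⟨pow_ne_zero 2 hp.ne_zero⟩
  have hp0 : (0 : ℝ) < p := by exact_mod_cast hp.pos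
  obtain ⟨Y, hY⟩ : ∃ Y : Set ({j : ι // j ≠ l} → ZMod p),
    Y = {y | eval y (A.map (Int.castRingHom (ZMod p))) ≠ 0} := ⟨_, rfl⟩
  rw [← hY] at h1
  have h2 := Clo.ncard_preimage (red2 l p) (red2_surj l p) (Y ×ˢ exac p)
  rw [Clo.card_pi, Nat.card_prod, Clo.card_pi, Nat.card_eq_fintype_card, ZMod.card, Set.ncard_prod] at h2
  have h3 := exac_card hp.two_le
  have h4 : ((red2 l p) ⁻¹' (Y ×ˢ exac p)).ncard ≤ (good l A B p).ncard := by
    refine Set.ncard_le_ncard_of_injOn (fun x => Function.update x l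
      (Ring.inverse (vq l (p ^ 2) A x) * (x l - vq l (p ^ 2) B x))) ?_ ?_ (Set.toFinite _)
    · rintro x ⟨hx1, hx2⟩
      rw [hY] at hx1
      have hu : IsUnit (vq l (p ^ 2) A x) := by
        apply unit_of hp
        rw [vq_red]
        exact hx1
      change vq l (p ^ 2) A _ * _ + vq l (p ^ 2) B _ ∈ exac p
      rw [vq_update, vq_update, Function.update_self, ← mul_assoc, Ring.mul_inverse_cancel _ hu, one_mul,
        sub_add_cancel]
      exact hx2
    · rintro x ⟨hx1, hx2⟩ x' ⟨hx1', hx2'⟩ h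
      rw [hY] at hx1 hx1'
      have hu : IsUnit (vq l (p ^ 2) A x) := by
        apply unit_of hp
        rw [vq_red]
        exact hx1
      have h5 : ∀ j : {j : ι // j ≠ l}, x j.1 = x' j.1 := by
        intro j
        have h6 := congrFun h j.1
        simp only at h6
        rwa [Function.update_of_ne j.2, Function.update_of_ne j.2] at h6
      have h6 : ∀ C : MvPolynomial {j : ι // j ≠ l} ℤ, vq l (p ^ 2) C x = vq l (p ^ 2) C x' := by
        intro C
        have h6 : (fun j : {j : ι // j ≠ l} => x j.1) = fun j => x' j.1 := funext h5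
        unfold vq
        rw [h6]
      have h7 := congrFun h l
      simp only at h7
      rw [Function.update_self, Function.update_self, ← h6 A, ← h6 B] at h7
      have h8 := congrArg (fun z => vq l (p ^ 2) A x * z) h7
      rw [← mul_assoc, ← mul_assoc, Ring.mul_inverse_cancel _ hu, one_mul, one_mul] at h8
      have h9 : x l = x' l := sub_left_injective h8
      funext i
      by_cases hi : i = l
      · rw [hi, h9]
      · exact h5 ⟨i, hi⟩
  have h5 : (((red2 l p) ⁻¹' (Y ×ˢ exac p)).ncard : ℝ) ≤ ((good l A B p).ncard : ℝ) := by exact_mod_cast h4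
  refine le_trans ?_ h5
  have h6 : (((red2 l p) ⁻¹' (Y ×ˢ exac p)).ncard : ℝ) *
      ((p : ℝ) ^ Fintype.card {j : ι // j ≠ l} * (p : ℝ) ^ 2) =
      ((Y.ncard : ℝ) * ((exac p).ncard : ℝ)) * ((p ^ 2 : ℕ) : ℝ) ^ Fintype.card ι := by exact_mod_cast h2
  have h7 : (0 : ℝ) < (p : ℝ) ^ Fintype.card {j : ι // j ≠ l} := by positivity
  have h8 : (p : ℝ) ^ Fintype.card {j : ι // j ≠ l} / 2 * ((p : ℝ) / 2) ≤ (Y.ncard : ℝ) * ((exac p).ncard : ℝ) :=
    mul_le_mul h1 h3 (by positivity) (by positivity)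
  have h9 : (0 : ℝ) ≤ ((p ^ 2 : ℕ) : ℝ) ^ Fintype.card ι := by positivity
  have h10 := mul_le_mul_of_nonneg_right h8 h9
  rw [← h6] at h10
  have h11 : 1 / (4 * (p : ℝ)) * ((p ^ 2 : ℕ) : ℝ) ^ Fintype.card ι *
      ((p : ℝ) ^ Fintype.card {j : ι // j ≠ l} * (p : ℝ) ^ 2) ≤
      (((red2 l p) ⁻¹' (Y ×ˢ exac p)).ncard : ℝ) *
      ((p : ℝ) ^ Fintype.card {j : ι // j ≠ l} * (p : ℝ) ^ 2) := by
    refine le_trans (le_of_eq ?_) h10
    field_simp
    ring
  exact le_of_mul_le_mul_right h11 (by positivity)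

theorem pro_hit_lin {P : Set ℕ} (hP : Big P) (l : ι) (A B : MvPolynomial {j : ι // j ≠ l} ℤ) (hA : A ≠ 0) :
    ProNull {c : ι → ℤ | ¬ Hit P (eval (fun j : {j : ι // j ≠ l} => c j.1) A * c l +
      eval (fun j : {j : ι // j ≠ l} => c j.1) B)} := by
  classical
  obtain ⟨T, hT⟩ := good_card l A B hA
  set w : ℕ → ℝ := fun p => if p ∈ P then 1 / (4 * (p : ℝ)) else 0 with hw
  have hns : ¬ Summable (fun p : ℕ => if p.Prime then w p else 0) := by
    intro hsum
    have h1 := hsum.mul_left 4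
    have h2 : Set.indicator {p : ℕ | p.Prime ∧ p ∈ P} (fun p : ℕ => 1 / (p : ℝ)) =
        fun p : ℕ => 4 * (if p.Prime then w p else 0) := by
      funext p
      by_cases h : p.Prime
      · by_cases h' : p ∈ P
        · have h3 : (p : ℝ) ≠ 0 := by exact_mod_cast h.ne_zero
          rw [Set.indicator_of_mem (show p ∈ {p : ℕ | p.Prime ∧ p ∈ P} from ⟨h, h'⟩), if_pos h, hw]
          simp only [h', if_true]
          field_simp
        · rw [Set.indicator_of_notMem (show p ∉ {p : ℕ | p.Prime ∧ p ∈ P} from fun h3 => h' h3.2),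
            if_pos h, hw]
          simp [h']
      · rw [Set.indicator_of_notMem (show p ∉ {p : ℕ | p.Prime ∧ p ∈ P} from fun h3 => h h3.1),
          if_neg h, mul_zero]
    apply hP
    rw [h2]
    exact h1
  have h := t_CRIT ι (fun p => p ^ 2) (fun p hp => Nat.pos_of_ne_zero (by
      have := hp.pos
      positivity)) (fun p p' hp hp' hne =>
      Nat.Coprime.pow 2 2 ((Nat.coprime_primes hp hp').mpr hne))
    (fun p => if p ∈ P then good l A B p else ∅) T w
    (fun p => by
      simp only [hw]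
      split_ifs <;> positivity) hns (fun p hp hlp => by
      by_cases hpP : p ∈ P
      · simp only [hw, hpP, if_true]
        exact hT p hp hlp
      · simp [hw, hpP])
  refine Clo.mono (fun c hc => ?_) h
  intro p hp hlp hmem
  apply hc
  by_cases hpP : p ∈ P
  · rw [if_pos hpP] at hmem
    have h2 : vq l (p ^ 2) A (fun i => (c i : ZMod (p ^ 2))) * (c l : ZMod (p ^ 2)) +
      vq l (p ^ 2) B (fun i => (c i : ZMod (p ^ 2))) ∈ exac p := hmem
    rw [vq_int, vq_int] at h2
    have h3 : (((eval (fun j : {j : ι // j ≠ l} => c j.1) A * c l +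
        eval (fun j : {j : ι // j ≠ l} => c j.1) B : ℤ)) : ZMod (p ^ 2)) ∈ exac p := by
      push_cast
      exact h2
    exact ⟨p, hpP, hp, (one_dvd p hp.one_lt.le _).1 h3.1, (one_val_ne p hp.one_lt.le _).1 h3.2⟩
  · rw [if_neg hpP] at hmem
    exact absurd hmem (Set.notMem_empty _)

end

/-- a polynomial of degree one in the variable `l` -/
theorem split {σ : Type} (F : MvPolynomial σ ℤ) (l : σ) (hF : F.degreeOf l = 1) :
    ∃ A B : MvPolynomial σ ℤ, A ≠ 0 ∧ l ∉ A.vars ∧ l ∉ B.vars ∧ F = A * X l + B := by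
  classical
  obtain ⟨A, hA⟩ : ∃ A, A = F.divMonomial (Finsupp.single l 1) := ⟨_, rfl⟩
  obtain ⟨B, hB⟩ : ∃ B, B = F.modMonomial (Finsupp.single l 1) := ⟨_, rfl⟩
  have hsup : ∀ m ∈ F.support, m l ≤ 1 := by
    intro m hm
    rw [← hF]
    exact monomial_le_degreeOf l hm
  refine ⟨A, B, ?_, ?_, ?_, ?_⟩
  · obtain ⟨m, hm, hml⟩ : ∃ m ∈ F.support, m l = 1 := by
      by_contra hcon
      push Not at hcon
      have h1 : F.degreeOf l ≤ 0 := by
        rw [degreeOf_le_iff]
        intro m hm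
        have h2 := hsup m hm
        have h3 := hcon m hm
        omega
      omega
    intro h0
    have h1 : coeff (m - Finsupp.single l 1) A = coeff m F := by
      rw [hA, coeff_divMonomial]
      congr 1
      refine add_tsub_cancel_of_le ?_
      rw [Finsupp.single_le_iff]
      omega
    rw [h0, coeff_zero] at h1
    exact (mem_support_iff.1 hm) h1.symm
  · intro h
    obtain ⟨m, hm, hml⟩ := (mem_vars l).1 h
    rw [mem_support_iff, hA, coeff_divMonomial, ← mem_support_iff] at hm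
    have h1 := hsup _ hm
    rw [Finsupp.add_apply, Finsupp.single_eq_same] at h1
    exact (Finsupp.mem_support_iff.1 hml) (by omega)
  · intro h
    obtain ⟨m, hm, hml⟩ := (mem_vars l).1 h
    rw [mem_support_iff, hB] at hm
    apply hm
    rw [coeff_modMonomial_of_le]
    rw [Finsupp.single_le_iff]
    exact Nat.one_le_iff_ne_zero.2 (Finsupp.mem_support_iff.1 hml)
  · rw [hA, hB, mul_comm]
    exact (divMonomial_add_modMonomial_single F l).symm

section

variable {ι : Type} [Fintype ι] [DecidableEq ι]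

theorem pro_hit_poly {P : Set ℕ} (hP : Big P) (F : MvPolynomial ι ℤ) (l : ι) (hF : F.degreeOf l = 1) :
    ProNull {c : ι → ℤ | ¬ Hit P (eval c F)} := by
  classical
  obtain ⟨A, B, hA, hAl, hBl, rfl⟩ := split F l hF
  have hr : ∀ C : MvPolynomial ι ℤ, l ∉ C.vars → ((C.vars : Finset ι) : Set ι) ⊆
      Set.range (Subtype.val : {j : ι // j ≠ l} → ι) := by
    intro C hC j hj
    refine ⟨⟨j, ?_⟩, rfl⟩
    rintro rfl
    exact hC hj
  obtain ⟨A', rfl⟩ := exists_rename_eq_of_vars_subset_range A _ Subtype.val_injective (hr A hAl)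
  obtain ⟨B', rfl⟩ := exists_rename_eq_of_vars_subset_range B _ Subtype.val_injective (hr B hBl)
  have hA' : A' ≠ 0 := by
    rintro rfl
    exact hA (map_zero _)
  refine Clo.mono ?_ (pro_hit_lin hP l A' B' hA')
  intro c hc h
  apply hc
  rw [map_add, map_mul, eval_X, eval_rename, eval_rename]
  exact h

/-- finitely many sets of primes -/
theorem pro_hits_poly {PP : Set (Set ℕ)} (hf : PP.Finite) (hP : ∀ P ∈ PP, Big P) (F : MvPolynomial ι ℤ) (l : ι)
    (hF : F.degreeOf l = 1) : ProNull {c : ι → ℤ | ¬ ∀ P ∈ PP, Hit P (eval c F)} := by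
  classical
  have : Nonempty ι := ⟨l⟩
  induction PP, hf using Set.Finite.induction_on with
  | empty =>
    refine Clo.mono (B := ∅) ?_ (Clo.finite Set.finite_empty)
    intro c hc
    exact absurd (fun P hP => absurd hP (Set.notMem_empty _)) hc
  | @insert P QQ _ _ ih =>
    refine Clo.mono ?_ (Clo.union (pro_hit_poly (hP P (Set.mem_insert _ _)) F l hF)
      (ih fun Q hQ => hP Q (Set.mem_insert_of_mem _ hQ)))
    intro c hc
    by_cases h1 : Hit P (eval c F)
    · right
      intro h2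
      apply hc
      intro Q hQ
      rcases Set.mem_insert_iff.1 hQ with rfl | hQ
      · exact h1
      · exact h2 Q hQ
    · left
      exact h1

end

end Pool.Agent.U552.UD.Pol
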