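import Pool.Agent.U552.UD.Fair
import Pool.Agent.U552.UD.Pol
import Pool.Agent.N676.OR.Diag

/-!
# Twists by the values of integral polynomials of degree one in some variable at a fair sequence of vectors
-/

set_option autoImplicit false
set_option linter.unusedSectionVars false
set_option linter.unusedVariables false

namespace Pool.Agent.U552.UD

open Filter Topology MvPolynomial
open Pool.Agent.N676.OR (DensityZero Big Hit)
open Pool.Agent.N24.RW (ProNull)
open Pool.Agent.U125.NO (Avoids nul_countable)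

/-- one set of times of density zero for all the data and all integral polynomials in finitely many of the coordinates
which have degree one in some variable -/
theorem Fair.values {𝔇 : Type} [Countable 𝔇] (good : 𝔇 → ℤ → Prop)
    (h : ∀ D, ∃ PP : Set (Set ℕ), PP.Finite ∧ (∀ P ∈ PP, Big P) ∧
      ∀ a : ℤ, (∀ P ∈ PP, Hit P a) → good D a) {c : ℕ → ℕ → ℤ} (hc : Fair c) :
    ∃ E : Set ℕ, DensityZero E ∧ ∀ F : MvPolynomial ℕ ℤ, (∃ l, F.degreeOf l = 1) → ∀ D,
      {t : ℕ | t ∉ E ∧ ¬ good D (eval (c t) F)}.Finite := by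
  classical
  have hcount : Countable (MvPolynomial ℕ ℤ) := by
    rw [← Cardinal.mk_le_aleph0_iff]
    refine (MvPolynomial.cardinalMk_le_max).trans ?_
    simp
  have key : ∀ (F : MvPolynomial ℕ ℤ), (∃ l, F.degreeOf l = 1) → ∀ D, Pool.Agent.U125.NO.Nul
      {t : ℕ | ¬ good D (eval (c t) F)} := by
    intro F hF D
    obtain ⟨l, hl⟩ := hF
    obtain ⟨PP, h1, h2, h3⟩ := h D
    obtain ⟨s, F', rfl⟩ := exists_finset_rename F
    have hls : l ∈ s := by
      by_contra hls
      have h4 : l ∉ (rename (Subtype.val : s → ℕ) F').vars := by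
        intro h5
        have h6 := vars_rename (Subtype.val : s → ℕ) F' h5
        obtain ⟨x, -, hx⟩ := Finset.mem_image.1 h6
        exact hls (hx ▸ x.2)
      have h5 : (rename (Subtype.val : s → ℕ) F').degreeOf l ≤ 0 := by
        rw [degreeOf_le_iff]
        intro m hm
        by_contra h6
        exact h4 ((mem_vars l).2 ⟨m, hm, Finsupp.mem_support_iff.2 (by omega)⟩)
      omega
    have hl' : F'.degreeOf ⟨l, hls⟩ = 1 := by
      rw [← degreeOf_rename_of_injective Subtype.val_injective (p := F') ⟨l, hls⟩]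
      exact hl
    have hpro : ProNull {x : s → ℤ | ¬ good D (eval x F')} := by
      refine Pool.Agent.N24.RW.Clo.mono ?_ (Pol.pro_hits_poly h1 h2 F' ⟨l, hls⟩ hl')
      intro x hx h5
      exact hx (h3 _ h5)
    have h4 := hc.avoids s (fun i => i.1) Subtype.val_injective (fun x => ¬ good D (eval x F')) hpro
    have e1 : {t : ℕ | ¬ good D (eval (c t) (rename (Subtype.val : s → ℕ) F'))} =
        {t : ℕ | ¬ good D (eval (fun i : s => c t i.1) F')} := by
      ext t
      simp only [Set.mem_setOf_eq]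
      rw [eval_rename]
      rfl
    rw [e1]
    exact h4
  obtain ⟨E, hE1, hE2⟩ := nul_countable (K := {F : MvPolynomial ℕ ℤ // ∃ l, F.degreeOf l = 1} × 𝔇)
    (fun k => {t : ℕ | ¬ good k.2 (eval (c t) k.1.1)}) (fun k => key k.1.1 k.1.2 k.2)
  refine ⟨E, hE1, fun F hF D => (hE2 (⟨F, hF⟩, D)).subset ?_⟩
  rintro t ⟨ht1, ht2⟩
  exact ⟨ht2, ht1⟩

end Pool.Agent.U552.UD
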